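import Pool.Agent.helper69.DH.SpecR2

set_option autoImplicit false

open Filter Topology MeasureTheory
open scoped commutatorElement

namespace Pool.Agent.helper90.DH

open Pool.Agent.helper64.D2

theorem RLC (hL : rLOC_stmt) : RLC_stmt := by
  intro q s0 w0 a cm cm' y D D' S h
  have key : ∀ s < S, ∀ t, t ≤ s → (rPP q s0 w0 a cm y).cm t = (rPP q s0 w0 a cm' y).cm t ∧
      (rPP q s0 w0 a cm y).T t = (rPP q s0 w0 a cm' y).T t ∧ D.H t = D'.H t ∧ D.K t = D'.K t ∧ D.G t = D'.G t := by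
    intro s hs t ht
    obtain ⟨h1, h2, h3, h4⟩ := h t (lt_of_le_of_lt ht hs)
    refine ⟨h1, ?_, h2, h3, h4⟩
    show rTB q (cm t) s0 (s0 + w0 - a * LL w0) y t = rTB q (cm' t) s0 (s0 + w0 - a * LL w0) y t
    rw [h1]
  refine ⟨fun hR s hs => ?_, fun s hs i k => ?_⟩
  · exact (hL (rPP q s0 w0 a cm y) (rPP q s0 w0 a cm' y) D D' s rfl rfl rfl rfl (key s hs)).1 (hR s hs)
  · exact (hL (rPP q s0 w0 a cm y) (rPP q s0 w0 a cm' y) D D' s rfl rfl rfl rfl (key s hs)).2 i k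

end Pool.Agent.helper90.DH
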